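import Mathlib
import Pool.Agent.W2helper3.BQ.Stm

set_option autoImplicit false

open scoped BigOperators

namespace Pool.Agent.W2helper97.BQ

open Pool.Agent.W2helper3.BQ
open Pool.Agent.Y282.RB (Cn)

/-- The coefficients of the partial fraction expansion. -/
noncomputable def cc (n : ℕ) (k : ℤ) (i : ℕ) : ℝ :=
  (∏ l ∈ Finset.range n, ((k : ℝ) - n + i - l)) /
    ∏ l ∈ (Finset.range n).erase i, ((i : ℝ) - l)

lemma prodne (n i : ℕ) : ∏ l ∈ (Finset.range n).erase i, ((i : ℝ) - l) ≠ 0 := by
  rw [Finset.prod_ne_zero_iff]
  intro l hl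
  have h := (Finset.mem_erase.mp hl).1
  intro h0
  apply h
  have : (i : ℝ) = l := by linarith
  exact_mod_cast this.symm

lemma pf_id (n : ℕ) (hn : 1 ≤ n) (k : ℤ) (p : ℝ) :
    PB p n k = PA p n k + ∑ i ∈ Finset.range n, Polynomial.C (cc n k i) * PE p n k i := by
  classical
  have hA : (PA p n k).Monic := Polynomial.monic_prod_of_monic _ _ fun i _ =>
    Polynomial.monic_X_sub_C _
  have hB : (PB p n k).Monic := Polynomial.monic_prod_of_monic _ _ fun i _ =>
    Polynomial.monic_X_sub_C _
  have hdA : (PA p n k).degree = n := by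
    rw [PA, Polynomial.degree_prod]
    simp
  have hdB : (PB p n k).degree = n := by
    rw [PB, Polynomial.degree_prod]
    simp
  have h1 : PB p n k - PA p n k =
      ∑ i ∈ Finset.range n, Polynomial.C (cc n k i) * PE p n k i := by
    apply Polynomial.eq_of_degrees_lt_of_eval_index_eq (v := fun i => al p n k i)
      (Finset.range n)
    · intro i _ j _ hij
      simp only [al] at hij
      have : (i : ℝ) = j := by linarith
      exact_mod_cast this
    · rw [Finset.card_range]
      have := Polynomial.degree_sub_lt (hdB.trans hdA.symm) hB.ne_zero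
        (by rw [hA.leadingCoeff, hB.leadingCoeff])
      rwa [hdB] at this
    · rw [Finset.card_range, ← Polynomial.mem_degreeLT]
      refine Submodule.sum_mem _ fun i hi => ?_
      rw [← Polynomial.smul_eq_C_mul]
      refine Submodule.smul_mem _ _ ?_
      rw [Polynomial.mem_degreeLT]
      rw [PE, Polynomial.degree_prod]
      simp only [Polynomial.degree_X_sub_C, Finset.sum_const, nsmul_eq_mul, mul_one]
      rw [Finset.card_erase_of_mem hi, Finset.card_range]
      exact_mod_cast (by omega : n - 1 < n)
    · intro j hj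
      rw [Polynomial.eval_sub, Polynomial.eval_finset_sum]
      have hPA0 : Polynomial.eval (al p n k j) (PA p n k) = 0 := by
        rw [PA, Polynomial.eval_prod]
        exact Finset.prod_eq_zero hj (by simp)
      have hPB0 : Polynomial.eval (al p n k j) (PB p n k) =
          ∏ l ∈ Finset.range n, ((k : ℝ) - n + j - l) := by
        rw [PB, Polynomial.eval_prod]
        refine Finset.prod_congr rfl fun l _ => ?_
        simp only [Polynomial.eval_sub, Polynomial.eval_X, Polynomial.eval_C, al, be]
        ring
      rw [hPA0, hPB0, sub_zero, Finset.sum_eq_single j]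
      · rw [Polynomial.eval_mul, Polynomial.eval_C, PE, Polynomial.eval_prod, cc]
        have : ∏ l ∈ (Finset.range n).erase j,
            Polynomial.eval (al p n k j) (Polynomial.X - Polynomial.C (al p n k l)) =
            ∏ l ∈ (Finset.range n).erase j, ((j : ℝ) - l) := by
          refine Finset.prod_congr rfl fun l _ => ?_
          simp only [Polynomial.eval_sub, Polynomial.eval_X, Polynomial.eval_C, al]
          ring
        rw [this, div_mul_cancel₀ _ (prodne n j)]
      · intro i _ hij
        rw [Polynomial.eval_mul, PE, Polynomial.eval_prod]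
        rw [Finset.prod_eq_zero (i := j) (Finset.mem_erase.mpr ⟨hij.symm, hj⟩) (by simp),
          mul_zero]
      · intro h
        exact absurd hj h
  rw [← h1]
  ring

lemma reflect (n : ℕ) (x : ℝ) :
    ∏ i ∈ Finset.range n, (x - n + i) = (-1) ^ n * ∏ j ∈ Finset.range n, ((j : ℝ) + 1 - x) := by
  have h1 : ∏ j ∈ Finset.range n, ((j : ℝ) + 1 - x) =
      ∏ i ∈ Finset.range n, (((n - 1 - i : ℕ) : ℝ) + 1 - x) :=
    (Finset.prod_range_reflect (fun j => ((j : ℝ) + 1 - x)) n).symm
  rw [h1]
  have h2 : ((-1 : ℝ)) ^ n = ∏ _i ∈ Finset.range n, (-1 : ℝ) := by simp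
  rw [h2, ← Finset.prod_mul_distrib]
  refine Finset.prod_congr rfl fun i hi => ?_
  have hi' := Finset.mem_range.mp hi
  have : ((n - 1 - i : ℕ) : ℝ) = (n : ℝ) - 1 - i := by
    rw [Nat.sub_sub, Nat.cast_sub (by omega)]
    push_cast
    ring
  rw [this]
  ring

theorem p_PF : P_PF := by
  intro n hn k
  refine ⟨cc n k, fun p _ => pf_id n hn k p, ?_, ?_⟩
  · intro i hi hki hk
    have hkr : (k : ℝ) = 2 * (n - i) := by linarith
    have hi1 : 1 ≤ i := by
      rcases Nat.eq_zero_or_pos i with h | h
      · exfalso
        apply hk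
        rw [h] at hkr
        have : (k : ℝ) = ((2 * n : ℤ) : ℝ) := by push_cast; rw [hkr]; push_cast; ring
        exact_mod_cast this
      · exact h
    rw [cc, Finset.prod_eq_zero (i := n - i) (Finset.mem_range.mpr (by omega)), zero_div]
    rw [Nat.cast_sub hi.le, hkr]
    ring
  · intro hk p hp
    have hp0 : 0 < 1 / p := by positivity
    have hal : ∀ i, al p n k i = 1 / p + i := by
      intro i
      simp only [al, hk]
      push_cast
      ring
    have hbe : ∀ i, be p n k i = 1 / p - n + i := by
      intro i
      simp only [be, hk]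
      push_cast
      ring
    have halne : ∀ i, al p n k i ≠ 0 := by
      intro i
      rw [hal]
      positivity
    have hid := congrArg (Polynomial.eval 0) (pf_id n hn k p)
    rw [Polynomial.eval_add, Polynomial.eval_finset_sum, PB, PA, Polynomial.eval_prod,
      Polynomial.eval_prod] at hid
    simp only [Polynomial.eval_sub, Polynomial.eval_X, Polynomial.eval_C, Polynomial.eval_mul,
      PE, Polynomial.eval_prod, zero_sub] at hid
    have hP : ∏ i ∈ Finset.range n, (-al p n k i) ≠ 0 := by
      rw [Finset.prod_ne_zero_iff]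
      intro i _
      exact neg_ne_zero.mpr (halne i)
    have hterm : ∀ i ∈ Finset.range n,
        cc n k i * ∏ l ∈ (Finset.range n).erase i, (-al p n k l) =
          -(cc n k i / al p n k i) * ∏ i ∈ Finset.range n, (-al p n k i) := by
      intro i hi
      rw [← Finset.mul_prod_erase _ _ hi]
      have := halne i
      field_simp
    rw [Finset.sum_congr rfl hterm, ← Finset.sum_mul] at hid
    have hB : ∏ i ∈ Finset.range n, (-be p n k i) =
        (-1) ^ n * Cn p n * ∏ i ∈ Finset.range n, (-al p n k i) := by
      have e1 : ∏ i ∈ Finset.range n, (-be p n k i) =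
          (-1) ^ n * ∏ i ∈ Finset.range n, be p n k i := by
        have h2 : ((-1 : ℝ)) ^ n = ∏ _i ∈ Finset.range n, (-1 : ℝ) := by simp
        rw [h2, ← Finset.prod_mul_distrib]
        exact Finset.prod_congr rfl fun i _ => by ring
      have e2 : ∏ i ∈ Finset.range n, be p n k i =
          (-1) ^ n * ∏ j ∈ Finset.range n, ((j : ℝ) + 1 - 1 / p) := by
        rw [← reflect n (1 / p)]
        exact Finset.prod_congr rfl fun i _ => hbe i
      have e3 : ∏ i ∈ Finset.range n, (-al p n k i) =
          (-1) ^ n * ∏ i ∈ Finset.range n, ((i : ℝ) + 1 / p) := by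
        have h2 : ((-1 : ℝ)) ^ n = ∏ _i ∈ Finset.range n, (-1 : ℝ) := by simp
        rw [h2, ← Finset.prod_mul_distrib]
        exact Finset.prod_congr rfl fun i _ => by rw [hal]; ring
      have e4 : ∏ i ∈ Finset.range n, ((i : ℝ) + 1 / p) ≠ 0 := by
        rw [Finset.prod_ne_zero_iff]
        intro i _
        positivity
      rw [e1, e2, e3, Cn, Finset.prod_div_distrib]
      generalize ∏ j ∈ Finset.range n, ((j : ℝ) + 1 - 1 / p) = X
      revert e4
      generalize ∏ i ∈ Finset.range n, ((i : ℝ) + 1 / p) = Y
      intro e4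
      field_simp
    rw [hB] at hid
    have hfin : ((-1) ^ n * Cn p n) * ∏ i ∈ Finset.range n, (-al p n k i) =
        (1 - ∑ i ∈ Finset.range n, cc n k i / al p n k i) *
          ∏ i ∈ Finset.range n, (-al p n k i) := by
      rw [hid, Finset.sum_neg_distrib]
      ring
    exact mul_right_cancel₀ hP hfin

end Pool.Agent.W2helper97.BQ
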