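import Mathlib
import Pool.Agent.W2helper3.BQ.Stm

set_option autoImplicit false

open MeasureTheory Set Filter Topology
open scoped SchwartzMap ENNReal ContDiff BigOperators FourierTransform LineDeriv

namespace Pool.Agent.W2helper97.BQ

open Pool.Agent.W2helper3.BQ

lemma DD_eq (ζ : 𝓢(ℝ, ℂ)) : DD ζ = ∂_{(1 : ℝ)} ζ := by
  ext x
  rw [SchwartzMap.lineDerivOp_apply_eq_fderiv]
  change deriv ζ x = _
  rw [fderiv_apply_one_eq_deriv]

theorem p_SUR : P_SUR := by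
  intro α hα φ
  set g₁ : ℝ → ℂ := fun ξ => 2 * Real.pi * Complex.I * ξ - α with hg1
  set h : ℝ → ℝ := fun ξ => (1 + ‖(2 * Real.pi / α) * ξ‖ ^ 2) ^ (-1 : ℝ) with hh
  have hlin : Function.HasTemperateGrowth (fun ξ : ℝ => (2 * Real.pi / α) * ξ) := by fun_prop
  have hth : h.HasTemperateGrowth :=
    (Function.hasTemperateGrowth_one_add_norm_sq_rpow ℝ (-1 : ℝ)).comp hlin
  have hthC : Function.HasTemperateGrowth (fun ξ => (h ξ : ℂ)) := by fun_prop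
  set g₂ : ℝ → ℂ := fun ξ => (-(2 * Real.pi * Complex.I * ξ) - α) * (h ξ : ℂ) *
    ((α⁻¹ ^ 2 : ℝ) : ℂ) with hg2
  have hofR : Function.HasTemperateGrowth (fun ξ : ℝ => (ξ : ℂ)) := by fun_prop
  have hg₁ : g₁.HasTemperateGrowth := by
    rw [hg1]
    fun_prop
  have hg₂ : g₂.HasTemperateGrowth := by
    rw [hg2]
    fun_prop
  have hprod : g₁ * g₂ = fun _ => (1 : ℂ) := by
    funext ξ
    simp only [Pi.mul_apply, hg1, hg2, hh]
    rw [Real.rpow_neg_one]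
    have h2 : (α ^ 2 + (2 * Real.pi * ξ) ^ 2) ≠ 0 := by positivity
    have h1 : (1 + ‖2 * Real.pi / α * ξ‖ ^ 2)⁻¹ * α⁻¹ ^ 2 =
        (α ^ 2 + (2 * Real.pi * ξ) ^ 2)⁻¹ := by
      rw [Real.norm_eq_abs, sq_abs]
      field_simp
    have h3 : ((α : ℂ) ^ 2 + (2 * Real.pi * ξ) ^ 2) ≠ 0 := by exact_mod_cast h2
    have h4 : (((1 + ‖2 * Real.pi / α * ξ‖ ^ 2)⁻¹ : ℝ) : ℂ) * ((α⁻¹ ^ 2 : ℝ) : ℂ) =
        ((α : ℂ) ^ 2 + (2 * Real.pi * ξ) ^ 2)⁻¹ := by
      rw [← Complex.ofReal_mul, h1]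
      push_cast
      ring
    have h5 : (2 * Real.pi * Complex.I * ξ - α) * (-(2 * Real.pi * Complex.I * ξ) - α) =
        ((α : ℂ) ^ 2 + (2 * Real.pi * ξ) ^ 2) := by
      have hI : Complex.I ^ 2 = -1 := Complex.I_sq
      linear_combination (-(2 * (Real.pi : ℂ) * ξ) ^ 2) * hI
    calc _ = ((2 * Real.pi * Complex.I * ξ - α) * (-(2 * Real.pi * Complex.I * ξ) - α)) *
          ((((1 + ‖2 * Real.pi / α * ξ‖ ^ 2)⁻¹ : ℝ) : ℂ) * ((α⁻¹ ^ 2 : ℝ) : ℂ)) := by ring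
      _ = 1 := by rw [h4, h5, mul_inv_cancel₀ h3]
  refine ⟨SchwartzMap.fourierMultiplierCLM ℂ g₂ φ, ?_⟩
  set ζ := SchwartzMap.fourierMultiplierCLM ℂ g₂ φ with hζ
  have hD : DD ζ - α • ζ = SchwartzMap.fourierMultiplierCLM ℂ g₁ ζ := by
    have h1 : SchwartzMap.smulLeftCLM ℂ g₁ (𝓕 ζ) =
        (2 * Real.pi * Complex.I) • SchwartzMap.smulLeftCLM ℂ (inner ℝ · (1 : ℝ)) (𝓕 ζ) +
          (-(α : ℂ)) • 𝓕 ζ := by
      ext x
      rw [SchwartzMap.smulLeftCLM_apply_apply hg₁, SchwartzMap.add_apply, SchwartzMap.smul_apply,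
        SchwartzMap.smul_apply, SchwartzMap.smulLeftCLM_apply_apply (by fun_prop)]
      simp only [hg1, smul_eq_mul, Complex.real_smul]
      simp
      ring
    have h2 : DD ζ = (2 * Real.pi * Complex.I) •
        SchwartzMap.fourierMultiplierCLM ℂ (inner ℝ · (1 : ℝ)) ζ := by
      rw [DD_eq]
      exact SchwartzMap.lineDeriv_eq_fourierMultiplierCLM 1 ζ
    rw [h2, SchwartzMap.fourierMultiplierCLM_apply, SchwartzMap.fourierMultiplierCLM_apply, h1]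
    rw [FourierTransform.fourierInv_add,
      FourierTransform.fourierInv_smul, FourierTransform.fourierInv_smul,
      FourierTransform.fourierInv_fourier_eq, sub_eq_add_neg]
    congr 1
    ext x
    simp
  rw [hD, hζ, SchwartzMap.fourierMultiplierCLM_fourierMultiplierCLM_apply hg₁ hg₂, hprod,
    SchwartzMap.fourierMultiplierCLM_const]
  simp

end Pool.Agent.W2helper97.BQ
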